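import Pool.Agent.H37.CA.Targets
import Pool.Agent.H37.CV.IE

/-!
# The correspondence of the characters of a ray class field
-/

set_option autoImplicit false

open NumberField Complex Filter Topology

namespace Pool.Agent.H45.CA

open Pool.Agent.H37.CA Pool.Agent.H37.CV Pool.Agent.H28.RC Pool.Agent.H25 Pool.Agent.H25.HK

theorem restrict_inj {F L : Type} [Field F] [NumberField F] [Field L] [NumberField L]
    [Algebra F L] {g g' : L ≃ₐ[F] L} (h : g.restrictScalars ℚ = g'.restrictScalars ℚ) :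
    g = g' := by
  ext x
  exact congrArg (fun f : L ≃ₐ[ℚ] L => f x) h

theorem pf_COR (hGRF : T_GRF) : T_COR := by
  classical
  intro F L _ _ _ _ _ _ _ _ m hm hmt hR
  obtain ⟨θ, hmul, hFro, hsurj, hker⟩ := hR
  obtain ⟨-, -, hlift, hres, -⟩ := hGRF F L
  haveI : IsEmpty (RP F) := RP_empty
  choose e he using hlift
  -- the ideal of an element
  choose J hJ0 hJm hJθ using hsurj
  have hne : ∀ I : Ideal (𝓞 F), I ⊔ m = ⊤ → I ≠ ⊥ := by
    rintro I hI rfl
    rw [bot_sup_eq] at hI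
    exact hmt hI
  have hemul : ∀ (h h' : HF F L), e (h * h' : HF F L) (h * h' : HF F L).2 =
      e h h.2 * e h' h'.2 := by
    intro h h'
    apply restrict_inj
    rw [he]
    have : (e h h.2 * e h' h'.2).restrictScalars ℚ =
        (e h h.2).restrictScalars ℚ * (e h' h'.2).restrictScalars ℚ := rfl
    rw [this, he, he]
    rfl
  have hee : ∀ (g : L ≃ₐ[F] L) (h : HF F L), (h : L ≃ₐ[ℚ] L) = g.restrictScalars ℚ →
      e h h.2 = g := by
    intro g h hgh
    apply restrict_inj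
    rw [he, hgh]
  have hray : ∀ ψ ∈ Ch m m, ∀ I : Ideal (𝓞 F), I ⊔ m = ⊤ → θ I = 1 → ψ I = 1 := by
    intro ψ hψ I hI h1
    obtain ⟨a, ha, rfl⟩ := (hker I (hne I hI) hI).1 h1
    have ha0 : a ≠ 0 := cop_ne_zero hmt hI
    exact hψ.1.ray a ha0 ha fun v => isEmptyElim v
  have hwd : ∀ ψ ∈ Ch m m, ∀ I K : Ideal (𝓞 F), I ⊔ m = ⊤ → K ⊔ m = ⊤ → θ I = θ K →
      ψ I = ψ K := by
    intro ψ hψ I K hI hK h
    have h1 : ψ (I * J (θ K)⁻¹) = 1 := by
      refine hray ψ hψ _ (cop_mul hI (hJm _)) ?_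
      rw [hmul I _ (hne I hI) (hJ0 _) hI (hJm _), hJθ, h, mul_inv_cancel]
    have h2 : ψ (K * J (θ K)⁻¹) = 1 := by
      refine hray ψ hψ _ (cop_mul hK (hJm _)) ?_
      rw [hmul K _ (hne K hK) (hJ0 _) hK (hJm _), hJθ, mul_inv_cancel]
    rw [hψ.1.mul] at h1 h2
    have h3 : ψ (J (θ K)⁻¹) ≠ 0 := by
      intro h0
      rw [h0, mul_zero] at h1
      exact zero_ne_one h1
    exact mul_right_cancel₀ h3 (h1.trans h2.symm)
  have hnz : ∀ ψ ∈ Ch m m, ∀ I : Ideal (𝓞 F), I ⊔ m = ⊤ → ψ I ≠ 0 := by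
    intro ψ hψ I hI h0
    have := hψ.1.norm I (hne I hI) hI
    rw [h0, norm_zero] at this
    exact zero_ne_one this
  let β : (Ideal (𝓞 F) → ℂ) → (HF F L →* ℂˣ) := fun ψ =>
    if hψ : ψ ∈ Ch m m then
      MonoidHom.mk' (fun h : HF F L => Units.mk0 (ψ (J (e h h.2))) (hnz ψ hψ _ (hJm _))) (by
        intro h h'
        apply Units.ext
        rw [Units.val_mul]
        simp only [Units.val_mk0]
        rw [← hψ.1.mul]
        refine hwd ψ hψ _ _ (hJm _) (cop_mul (hJm _) (hJm _)) ?_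
        rw [hJθ, hmul _ _ (hJ0 _) (hJ0 _) (hJm _) (hJm _), hJθ, hJθ, hemul])
    else 1
  have hβ : ∀ ψ ∈ Ch m m, ∀ h : HF F L, ((β ψ h : ℂˣ) : ℂ) = ψ (J (e h h.2)) := by
    intro ψ hψ h
    simp only [β, dif_pos hψ]
    rfl
  have hβI : ∀ ψ ∈ Ch m m, ∀ (I : Ideal (𝓞 F)) (h : HF F L), I ⊔ m = ⊤ → θ I = e h h.2 →
      ψ I = ((β ψ h : ℂˣ) : ℂ) := by
    intro ψ hψ I h hI h1
    rw [hβ ψ hψ]
    exact hwd ψ hψ _ _ hI (hJm _) (by rw [hJθ, h1])
  -- the element of an ideal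
  let c : Ideal (𝓞 F) → HF F L := fun I => ⟨(θ I).restrictScalars ℚ, hres _⟩
  have hc : ∀ I, e (c I) (c I).2 = θ I := fun I => hee _ _ rfl
  have hcmul : ∀ I K : Ideal (𝓞 F), I ⊔ m = ⊤ → K ⊔ m = ⊤ → c (I * K) = c I * c K := by
    intro I K hI hK
    apply Subtype.ext
    change (θ (I * K)).restrictScalars ℚ = (θ I).restrictScalars ℚ * (θ K).restrictScalars ℚ
    rw [hmul I K (hne I hI) (hne K hK) hI hK]
    rfl
  refine ⟨β, ⟨fun _ _ => Set.mem_univ _, ?_, ?_⟩, ?_⟩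
  · intro ψ hψ ψ' hψ' h
    funext I
    by_cases hI : I ⊔ m = ⊤
    · rw [hβI ψ hψ I (c I) hI (hc I).symm, hβI ψ' hψ' I (c I) hI (hc I).symm, h]
    · rw [hψ.1.zero I hI, hψ'.1.zero I hI]
  · intro φ _
    let ψ : Ideal (𝓞 F) → ℂ := fun I => if I ⊔ m = ⊤ then ((φ (c I) : ℂˣ) : ℂ) else 0
    have hψp : ∀ I, I ⊔ m = ⊤ → ψ I = ((φ (c I) : ℂˣ) : ℂ) := fun I hI => if_pos hI
    have hψn : ∀ I, I ⊔ m ≠ ⊤ → ψ I = 0 := fun I hI => if_neg hI
    have hone : c ⊤ = 1 := by
      have h1 : θ (⊤ : Ideal (𝓞 F)) = 1 := by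
        refine (hker ⊤ (hne ⊤ (top_sup_eq _)) (top_sup_eq _)).2 ⟨1, ?_, ?_⟩
        · rw [sub_self]; exact m.zero_mem
        · rw [Ideal.span_singleton_one]
      apply Subtype.ext
      change (θ ⊤).restrictScalars ℚ = 1
      rw [h1]
      rfl
    have hPC : PC m ψ := by
      refine ⟨hm, ?_, ?_, ?_, ?_, hψn, ?_⟩
      · rw [hψp ⊤ (top_sup_eq _), hone, map_one, Units.val_one]
      · intro I K
        by_cases hI : I ⊔ m = ⊤
        · by_cases hK : K ⊔ m = ⊤
          · rw [hψp I hI, hψp K hK, hψp _ (cop_mul hI hK), hcmul I K hI hK, map_mul,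
              Units.val_mul]
          · rw [hψn K hK, mul_zero]
            exact hψn _ fun h => hK (cop_right h)
        · rw [hψn I hI, zero_mul]
          exact hψn _ fun h => hI (cop_left h)
      · refine hψn _ ?_
        rw [bot_sup_eq]
        exact hmt
      · intro I _ hI
        rw [hψp I hI]
        haveI : Finite (HF F L) := inferInstance
        have hfin : φ (c I) ^ Nat.card (HF F L) = 1 := by
          rw [← map_pow, pow_card_eq_one', map_one]
        refine Complex.norm_eq_one_of_pow_eq_one (n := Nat.card (HF F L)) ?_ Nat.card_pos.ne'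
        rw [← Units.val_pow_eq_pow_val, hfin, Units.val_one]
      · intro a ha0 ha _
        have hcop : Ideal.span {a} ⊔ m = ⊤ := by
          refine cop_of_sub_mem (cop_one m) ?_
          rw [← neg_sub]
          exact m.neg_mem ha
        rw [hψp _ hcop]
        have h1 : θ (Ideal.span {a}) = 1 := (hker _ (hne _ hcop) hcop).2 ⟨a, ha, rfl⟩
        have h2 : c (Ideal.span {a}) = 1 := by
          apply Subtype.ext
          change (θ (Ideal.span {a})).restrictScalars ℚ = 1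
          rw [h1]
          rfl
        rw [h2, map_one, Units.val_one]
    have hCh : ψ ∈ Ch m m := mem_Ch_self hmt hPC
    refine ⟨ψ, hCh, ?_⟩
    apply MonoidHom.ext
    intro h
    apply Units.ext
    rw [hβ ψ hCh h, hψp _ (hJm _)]
    congr 2
    apply Subtype.ext
    change (θ (J (e h h.2))).restrictScalars ℚ = h
    rw [hJθ, he]
  · intro ψ hψ P g h hP hF hgh
    refine hβI ψ hψ P h hP ?_
    rw [hee g h hgh]
    exact (hFro P g hP hF).symm

end Pool.Agent.H45.CA
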